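import Mathlib

open MeasureTheory
open scoped ENNReal

namespace Pool.Agent.Helper66.NI

noncomputable def numRadius (𝕜 : Type*) {X : Type*} [RCLike 𝕜] [NormedAddCommGroup X]
    [NormedSpace 𝕜 X] (T : X →L[𝕜] X) : ℝ :=
  sSup {r : ℝ | ∃ (x : X) (f : X →L[𝕜] 𝕜), ‖x‖ = 1 ∧ ‖f‖ = 1 ∧ f x = 1 ∧ r = ‖f (T x)‖}

noncomputable def numIndex (𝕜 : Type*) (X : Type*) [RCLike 𝕜] [NormedAddCommGroup X]
    [NormedSpace 𝕜 X] : ℝ :=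
  sInf {r : ℝ | ∃ T : X →L[𝕜] X, ‖T‖ = 1 ∧ r = numRadius 𝕜 T}

def Atomless {Ω : Type*} [MeasurableSpace Ω] (μ : Measure Ω) : Prop :=
  ∀ A : Set Ω, MeasurableSet A → μ A ≠ 0 →
    ∃ B : Set Ω, B ⊆ A ∧ MeasurableSet B ∧ μ B ≠ 0 ∧ μ (A \ B) ≠ 0

def Narrow {𝕜 : Type*} [RCLike 𝕜] {Ω : Type*} [MeasurableSpace Ω] {μ : Measure Ω}
    [IsFiniteMeasure μ] {p : ℝ≥0∞} [Fact (1 ≤ p)] (T : Lp 𝕜 p μ →L[𝕜] Lp 𝕜 p μ) : Prop :=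
  ∀ A : Set Ω, MeasurableSet A → ∀ ε : ℝ, 0 < ε →
    ∃ (B C : Set Ω) (hB : MeasurableSet B) (hC : MeasurableSet C),
      B ∪ C = A ∧ Disjoint B C ∧ μ B = μ C ∧
      ‖T (indicatorConstLp p hB (measure_ne_top μ B) (1 : 𝕜)
        - indicatorConstLp p hC (measure_ne_top μ C) (1 : 𝕜))‖ < ε

noncomputable def narIndex (𝕜 : Type*) [RCLike 𝕜] (p : ℝ≥0∞) [Fact (1 ≤ p)] {Ω : Type*}
    [MeasurableSpace Ω] (μ : Measure Ω) [IsFiniteMeasure μ] : ℝ :=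
  sInf {r : ℝ | ∃ T : Lp 𝕜 p μ →L[𝕜] Lp 𝕜 p μ, ‖T‖ = 1 ∧ Narrow T ∧ r = numRadius 𝕜 T}

instance fact_one_le_four : Fact ((1 : ℝ≥0∞) ≤ 4) := ⟨by norm_num⟩

/-- one half of the interval -/
noncomputable def mu01 : Measure ℝ := volume.restrict (Set.Icc (0 : ℝ) 1)

instance : IsFiniteMeasure mu01 := by unfold mu01; infer_instance

section
variable {Ω : Type*} [MeasurableSpace Ω] {μ : Measure Ω}

noncomputable def quad (a b c d : Lp ℝ 4 μ) : ℝ := ∫ ω, a ω * b ω * c ω * d ω ∂μ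

noncomputable def cub (f g : Lp ℝ 4 μ) : ℝ := ∫ ω, (f ω) ^ 3 * g ω ∂μ

noncomputable def toL [IsFiniteMeasure μ] (g : SimpleFunc Ω ℝ) : Lp ℝ 4 μ :=
  (g.memLp_of_isFiniteMeasure 4 μ).toLp g

noncomputable def ind (μ : Measure Ω) [IsFiniteMeasure μ] {A : Set Ω} (hA : MeasurableSet A) :
    Lp ℝ 4 μ := indicatorConstLp 4 hA (measure_ne_top μ A) (1 : ℝ)

end

end Pool.Agent.Helper66.NI
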