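import Pool.Agent.Helper66.NI.Stmts

open MeasureTheory Filter Topology
open scoped ENNReal

namespace Pool.Agent.Helper66.NI

theorem fin_nonneg {X : Type*} [NormedAddCommGroup X] [NormedSpace ℝ X] (T : X →L[ℝ] X) :
    0 ≤ numRadius ℝ T := by
  apply Real.sSup_nonneg
  rintro r ⟨x, f, -, -, -, rfl⟩
  exact norm_nonneg _

theorem fin_low (hLOW : ST_LOW) (hRAD : ST_RAD) {Ω : Type} [MeasurableSpace Ω] (μ : Measure Ω)
    [IsFiniteMeasure μ] (T : Lp ℝ 4 μ →L[ℝ] Lp ℝ 4 μ) (h1 : ‖T‖ = 1) (h2 : Narrow T) :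
    Real.sqrt 2 / 4 ≤ numRadius ℝ T :=
  hLOW Ω μ T h2 h1 _ (hRAD Ω μ T)

theorem fin_nar (hLOW : ST_LOW) (hRAD : ST_RAD) (hRADLE : ST_RADLE) (hROT : ST_ROT)
    (Ω : Type) [MeasurableSpace Ω] (μ : Measure Ω) [IsFiniteMeasure μ] (hμ : μ ≠ 0)
    (hA : Atomless μ) : narIndex ℝ 4 μ = Real.sqrt 2 / 4 := by
  obtain ⟨T, hT1, hT2, hT3⟩ := hROT Ω μ hμ hA
  have hmem : numRadius ℝ T ∈ {r : ℝ | ∃ T : Lp ℝ 4 μ →L[ℝ] Lp ℝ 4 μ, ‖T‖ = 1 ∧ Narrow T ∧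
      r = numRadius ℝ T} := ⟨T, hT1, hT2, rfl⟩
  apply le_antisymm
  · refine (csInf_le ⟨Real.sqrt 2 / 4, ?_⟩ hmem).trans (hRADLE Ω μ T _ (by positivity) hT3)
    rintro r ⟨S, h1, h2, rfl⟩
    exact fin_low hLOW hRAD μ S h1 h2
  · refine le_csInf ⟨_, hmem⟩ ?_
    rintro r ⟨S, h1, h2, rfl⟩
    exact fin_low hLOW hRAD μ S h1 h2

theorem fin_idx (hRADLE : ST_RADLE) (hTEN : ST_TEN) (hSOS : ST_SOS) :
    numIndex ℝ (Lp ℝ 4 mu01) ≤ 0.3535 := by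
  obtain ⟨T, hT1, hT2⟩ := hTEN M0
  have h1 := hT1 105.34 hSOS
  have h2 := hT2 ![-1, -1, 5]
  have h3 : ∑ i, (M0.mulVec ![-1, -1, 5]) i ^ 4 = 2 * 1254 ^ 4 := by
    simp [M0, Matrix.mulVec, dotProduct, Fin.sum_univ_three]
    norm_num
  have h4 : ∑ i, (![-1, -1, 5] : Fin 3 → ℝ) i ^ 4 = 627 := by
    simp [Fin.sum_univ_three]
    norm_num
  rw [h3, h4] at h2
  have h5 : (297.992 : ℝ) ≤ ‖T‖ := by
    by_contra hlt
    push Not at hlt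
    have h6 : ‖T‖ ^ 4 ≤ 297.992 ^ 4 := by gcongr
    norm_num at h2 h6
    linarith
  have hpos : 0 < ‖T‖ := by linarith
  set S : Lp ℝ 4 mu01 →L[ℝ] Lp ℝ 4 mu01 := ‖T‖⁻¹ • T with hS
  have hS1 : ‖S‖ = 1 := by
    rw [hS, norm_smul, norm_inv, norm_norm]; field_simp
  have hS2 : ∀ f : Lp ℝ 4 mu01, |cub f (S f)| ≤ 0.3535 * ‖f‖ ^ 4 := by
    intro f
    have e : cub f (S f) = ‖T‖⁻¹ * cub f (T f) := by
      unfold cub
      rw [← integral_const_mul]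
      refine integral_congr_ae ?_
      have := Lp.coeFn_smul ‖T‖⁻¹ (T f)
      filter_upwards [this] with ω h
      have h7 : (S f) ω = ‖T‖⁻¹ * (T f) ω := by
        rw [hS, smul_apply, h, Pi.smul_apply, smul_eq_mul]
      rw [h7]; ring
    rw [e, abs_mul, abs_of_pos (inv_pos.2 hpos)]
    have h8 : ‖T‖⁻¹ ≤ (297.992)⁻¹ := by gcongr
    have h9 : 0 ≤ ‖f‖ ^ 4 := by positivity
    calc ‖T‖⁻¹ * |cub f (T f)| ≤ (297.992)⁻¹ * (105.34 * ‖f‖ ^ 4) := by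
          gcongr; exact h1 f
      _ ≤ 0.3535 * ‖f‖ ^ 4 := by nlinarith
  have hle := hRADLE ℝ mu01 S 0.3535 (by norm_num) hS2
  refine le_trans (csInf_le ⟨0, ?_⟩ ⟨S, hS1, rfl⟩) hle
  rintro r ⟨S, h1, rfl⟩
  exact fin_nonneg S

theorem fin_num : (0.3535 : ℝ) < Real.sqrt 2 / 4 := by
  have : (1.414 : ℝ) < Real.sqrt 2 := by
    rw [Real.lt_sqrt (by norm_num)]; norm_num
  linarith

theorem fin_ne : mu01 ≠ 0 := by
  intro h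
  have : mu01 (Set.Icc 0 1) = 0 := by rw [h]; rfl
  rw [mu01, Measure.restrict_apply measurableSet_Icc, Set.inter_self, Real.volume_Icc] at this
  norm_num at this

theorem st_FIN (hLOW : ST_LOW) (hRAD : ST_RAD) (hRADLE : ST_RADLE) (hROT : ST_ROT)
    (hTEN : ST_TEN) (hSOS : ST_SOS) (hATL : ST_ATL) : ST_FIN := by
  refine ⟨?_, hATL, fin_ne, lt_of_le_of_lt (fin_idx hRADLE hTEN hSOS) fin_num⟩
  intro Ω _ μ _ hμ hA
  exact fin_nar hLOW hRAD hRADLE hROT Ω μ hμ hA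

end Pool.Agent.Helper66.NI
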