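import Pool.Agent.Helper66.NI.Stmts

open MeasureTheory Filter Topology
open scoped ENNReal

namespace Pool.Agent.Helper66.NI

theorem low_coe {Ω : Type} [MeasurableSpace Ω] {μ : Measure Ω} [IsFiniteMeasure μ]
    (g : SimpleFunc Ω ℝ) : (toL (μ := μ) g : Ω → ℝ) =ᵐ[μ] g :=
  MemLp.coeFn_toLp _

theorem low_intS {Ω : Type} [MeasurableSpace Ω] {μ : Measure Ω} [IsFiniteMeasure μ]
    (g : SimpleFunc Ω (ℝ × ℝ)) (F : ℝ × ℝ → ℝ) : Integrable (fun ω => F (g ω)) μ := by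
  have := (g.map F).integrable_of_isFiniteMeasure (μ := μ)
  simpa [SimpleFunc.coe_map, Function.comp_def] using this

theorem low_intM {Ω : Type} [MeasurableSpace Ω] {μ : Measure Ω} [IsFiniteMeasure μ]
    (g : SimpleFunc Ω (ℝ × ℝ)) (F : ℝ × ℝ → ℝ) (y : Lp ℝ 4 μ) :
    Integrable (fun ω => F (g ω) * y ω) μ := by
  have hy : Integrable (fun ω => y ω) μ := (Lp.memLp y).integrable (by norm_num)
  obtain ⟨C, hC⟩ := (g.map F).exists_forall_norm_le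
  refine hy.bdd_mul (c := C) ?_ ?_
  · have := (g.map F).aestronglyMeasurable (μ := μ)
    simpa [SimpleFunc.coe_map, Function.comp_def] using this
  · refine Eventually.of_forall fun ω => ?_
    have := hC ω
    simpa [SimpleFunc.coe_map] using this

theorem low_core (hK : ST_K) (hVAR : ST_VAR) (hPW : ST_PW) (hBAS : ST_BAS)
    (Ω : Type) [MeasurableSpace Ω] (μ : Measure Ω) [IsFiniteMeasure μ]
    (T : Lp ℝ 4 μ →L[ℝ] Lp ℝ 4 μ) (hT : Narrow T) (hT1 : ‖T‖ = 1) (V : ℝ)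
    (hV : ∀ f : Lp ℝ 4 μ, |cub f (T f)| ≤ V * ‖f‖ ^ 4)
    (δ : ℝ) (hδ : 0 < δ) (hδ1 : δ ≤ 1) (g : SimpleFunc Ω (ℝ × ℝ))
    (g1 : ‖toL (μ := μ) (g.map Prod.fst)‖ = 1)
    (g2 : 1 - δ ≤ ‖T (toL (g.map Prod.fst))‖)
    (g3 : ‖T (toL (g.map Prod.fst)) - toL (g.map Prod.snd)‖ ≤ δ)
    (hS : 0 ≤ ∫ ω, ((g ω).1 * (g ω).2 ^ 3 + (g ω).1 ^ 3 * (g ω).2) ∂μ)
    (hlt : V < Real.sqrt 2 / 4) : Real.sqrt 2 / 4 - V ≤ 608 * Real.sqrt δ := by
  obtain ⟨hInt, hN4, hH⟩ := hBAS Ω μ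
  obtain ⟨u, v, θ, u', v', θ', t1, t2, t3, t4, t5, t6, t7, t8, t9⟩ := hPW
  set hP : ℝ × ℝ → ℝ := fun p => θ p * u p ^ 3 + (1 - θ p) * v p ^ 3 with hhP
  set cP : ℝ × ℝ → ℝ := fun p => θ p * u p ^ 4 + (1 - θ p) * v p ^ 4 with hcP
  set mD : ℝ × ℝ → ℝ := fun p => θ' p * u' p + (1 - θ' p) * v' p with hmD
  set cD : ℝ × ℝ → ℝ := fun p => θ' p * u' p ^ 4 + (1 - θ' p) * v' p ^ 4 with hcD
  have P := hK Ω μ T hT V hV g u v θ t1
  have D := hK Ω μ T hT V hV g u' v' θ' t2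
  have e1 : (fun p => θ p * u p + (1 - θ p) * v p) = (Prod.fst : ℝ × ℝ → ℝ) := funext t3
  rw [e1] at P
  simp only [t4] at D
  set z : Lp ℝ 4 μ := toL (g.map Prod.fst) with hz
  set y : Lp ℝ 4 μ := T z with hy
  set y' : Lp ℝ 4 μ := toL (g.map Prod.snd) with hy'
  set w : Lp ℝ 4 μ := toL (g.map mD) with hw
  set S : Lp ℝ 4 μ := toL (g.map (fun p => |p.1| + |p.2|)) with hS'
  have cz : (z : Ω → ℝ) =ᵐ[μ] fun ω => (g ω).1 := low_coe _
  have cy' : (y' : Ω → ℝ) =ᵐ[μ] fun ω => (g ω).2 := low_coe _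
  have cw : (w : Ω → ℝ) =ᵐ[μ] fun ω => mD (g ω) := low_coe _
  have cS : (S : Ω → ℝ) =ᵐ[μ] fun ω => |(g ω).1| + |(g ω).2| := low_coe _
  have ny : ‖y‖ ≤ 1 := by
    have := T.le_opNorm z
    rw [hT1, g1] at this; simpa using this
  have ny' : ‖y'‖ ≤ 2 := by
    have : ‖y'‖ ≤ ‖y‖ + ‖y - y'‖ := by
      have := norm_sub_le y (y - y'); simpa using this
    linarith
  have nz4 : (∫ ω, (g ω).1 ^ 4 ∂μ) = 1 := by
    have := hN4 z
    rw [g1, one_pow] at this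
    rw [this]
    exact integral_congr_ae (by filter_upwards [cz] with ω h; rw [h])
  have ny4 : (∫ ω, (g ω).2 ^ 4 ∂μ) ≤ 16 := by
    have h1 := hN4 y'
    have h2 : ‖y'‖ ^ 4 ≤ 2 ^ 4 := by gcongr
    have h3 : (∫ ω, (y' ω) ^ 4 ∂μ) = ∫ ω, (g ω).2 ^ 4 ∂μ :=
      integral_congr_ae (by filter_upwards [cy'] with ω h; rw [h])
    rw [← h3, ← h1]; norm_num at h2 ⊢; exact h2
  have nS : ‖S‖ ≤ 4 := by
    have h1 := hN4 S
    have h3 : (∫ ω, (S ω) ^ 4 ∂μ) = ∫ ω, (|(g ω).1| + |(g ω).2|) ^ 4 ∂μ :=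
      integral_congr_ae (by filter_upwards [cS] with ω h; rw [h])
    have h4 : (∫ ω, (|(g ω).1| + |(g ω).2|) ^ 4 ∂μ)
        ≤ ∫ ω, (8 * (g ω).1 ^ 4 + 8 * (g ω).2 ^ 4) ∂μ := by
      refine integral_mono (low_intS g (fun p => (|p.1| + |p.2|) ^ 4))
        (low_intS g (fun p => 8 * p.1 ^ 4 + 8 * p.2 ^ 4)) ?_
      intro ω
      have ha : (g ω).1 ^ 4 = |(g ω).1| ^ 4 := by rw [← abs_pow, abs_of_nonneg (by positivity)]
      have hb : (g ω).2 ^ 4 = |(g ω).2| ^ 4 := by rw [← abs_pow, abs_of_nonneg (by positivity)]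
      simp only []
      rw [ha, hb]
      nlinarith [sq_nonneg (|(g ω).1| ^ 2 - |(g ω).2| ^ 2), sq_nonneg (|(g ω).1| - |(g ω).2|),
        mul_nonneg (sq_nonneg (|(g ω).1| - |(g ω).2|)) (sq_nonneg (|(g ω).1| + |(g ω).2|)),
        mul_nonneg (sq_nonneg (|(g ω).1| - |(g ω).2|)) (sq_nonneg (|(g ω).1| - |(g ω).2|))]
    have h5 : (∫ ω, (8 * (g ω).1 ^ 4 + 8 * (g ω).2 ^ 4) ∂μ) ≤ 136 := by
      rw [integral_add (low_intS g (fun p => 8 * p.1 ^ 4)) (low_intS g (fun p => 8 * p.2 ^ 4)),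
        integral_const_mul, integral_const_mul, nz4]
      linarith
    have h6 : ‖S‖ ^ 4 ≤ 4 ^ 4 := by rw [h1, h3]; linarith
    exact le_of_pow_le_pow_left₀ (by norm_num) (by norm_num) h6
  have nw : ‖w‖ ≤ 8 := by
    have h1 := hN4 w
    have h3 : (∫ ω, (w ω) ^ 4 ∂μ) = ∫ ω, (mD (g ω)) ^ 4 ∂μ :=
      integral_congr_ae (by filter_upwards [cw] with ω h; rw [h])
    have h4 : (∫ ω, (mD (g ω)) ^ 4 ∂μ) ≤ ∫ ω, 16 * (|(g ω).1| + |(g ω).2|) ^ 4 ∂μ := by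
      refine integral_mono (low_intS g (fun p => mD p ^ 4))
        (low_intS g (fun p => 16 * (|p.1| + |p.2|) ^ 4)) ?_
      intro ω
      have := t6 (g ω)
      have h7 : mD (g ω) ^ 4 = |mD (g ω)| ^ 4 := by rw [← abs_pow, abs_of_nonneg (by positivity)]
      simp only []
      rw [h7]
      calc |mD (g ω)| ^ 4 ≤ (2 * (|(g ω).1| + |(g ω).2|)) ^ 4 := by gcongr
        _ = 16 * (|(g ω).1| + |(g ω).2|) ^ 4 := by ring
    have h5 : (∫ ω, 16 * (|(g ω).1| + |(g ω).2|) ^ 4 ∂μ) = 16 * ‖S‖ ^ 4 := by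
      rw [integral_const_mul, hN4 S]
      congr 1
      exact integral_congr_ae (by filter_upwards [cS] with ω h; rw [h])
    have h8 : ‖S‖ ^ 4 ≤ 4 ^ 4 := by gcongr
    have h6 : ‖w‖ ^ 4 ≤ 8 ^ 4 := by rw [h1, h3]; linarith
    exact le_of_pow_le_pow_left₀ (by norm_num) (by norm_num) h6
  have sδ : δ ≤ Real.sqrt δ := by
    have := Real.sqrt_le_sqrt (show δ ^ 2 ≤ δ by nlinarith)
    rwa [Real.sqrt_sq hδ.le] at this
  -- (3)
  have q3 : |(∫ ω, hP (g ω) * y ω ∂μ) - ∫ ω, hP (g ω) * (g ω).2 ∂μ| ≤ 512 * δ := by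
    rw [← integral_sub (low_intM g hP y) (low_intS g (fun p => hP p * p.2))]
    have h1 := hH S S S (y - y')
    have h2 : |∫ ω, (hP (g ω) * y ω - hP (g ω) * (g ω).2) ∂μ|
        ≤ ∫ ω, 8 * |S ω * S ω * S ω * (y - y') ω| ∂μ := by
      refine (abs_integral_le_integral_abs).trans ?_
      refine integral_mono_ae ?_ ?_ ?_
      · exact ((low_intM g hP y).sub (low_intS g (fun p => hP p * p.2))).abs
      · exact ((hInt S S S (y - y')).abs).const_mul 8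
      · filter_upwards [cS, cy', Lp.coeFn_sub y y'] with ω hs hy2 hsub
        rw [hs, hsub, Pi.sub_apply, hy2]
        have h3 := t5 (g ω)
        have h4 : hP (g ω) * y ω - hP (g ω) * (g ω).2 = hP (g ω) * (y ω - (g ω).2) := by ring
        rw [h4, abs_mul, abs_mul, abs_mul, abs_mul, abs_of_nonneg (a := |(g ω).1| + |(g ω).2|)
          (by positivity)]
        calc |hP (g ω)| * |y ω - (g ω).2|
            ≤ (8 * (|(g ω).1| + |(g ω).2|) ^ 3) * |y ω - (g ω).2| := by gcongr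
          _ = _ := by ring
    rw [integral_const_mul] at h2
    have h5 : ‖S‖ * ‖S‖ * ‖S‖ * ‖y - y'‖ ≤ 4 * 4 * 4 * δ := by gcongr
    linarith
  -- (4)
  have nTw : ‖T w‖ ≤ 8 := by
    have := T.le_opNorm w
    rw [hT1, one_mul] at this; linarith
  have q4 : |(∫ ω, (g ω).2 ^ 3 * (T w) ω ∂μ) - cub y (T w)| ≤ 56 * δ := by
    have i1 : Integrable (fun ω => (g ω).2 ^ 3 * (T w) ω) μ := low_intM g (fun p => p.2 ^ 3) (T w)
    have i2 : Integrable (fun ω => (y ω) ^ 3 * (T w) ω) μ := by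
      refine (hInt y y y (T w)).congr ?_
      exact Eventually.of_forall fun ω => by simp only []; ring
    unfold cub
    rw [← integral_sub i1 i2]
    have a1 := hH (y - y') y' y' (T w)
    have a2 := hH (y - y') y' y (T w)
    have a3 := hH (y - y') y y (T w)
    have h2 : |∫ ω, ((g ω).2 ^ 3 * (T w) ω - (y ω) ^ 3 * (T w) ω) ∂μ|
        ≤ ∫ ω, (|(y - y') ω * y' ω * y' ω * (T w) ω| + |(y - y') ω * y' ω * y ω * (T w) ω|
          + |(y - y') ω * y ω * y ω * (T w) ω|) ∂μ := by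
      refine (abs_integral_le_integral_abs).trans ?_
      refine integral_mono_ae ?_ ?_ ?_
      · exact (i1.sub i2).abs
      · exact (((hInt _ _ _ _).abs).add ((hInt _ _ _ _).abs)).add ((hInt _ _ _ _).abs)
      · filter_upwards [cy', Lp.coeFn_sub y y'] with ω hy2 hsub
        rw [hsub, Pi.sub_apply, hy2]
        have h4 : (g ω).2 ^ 3 * (T w) ω - (y ω) ^ 3 * (T w) ω
            = -((y ω - (g ω).2) * (g ω).2 * (g ω).2 * (T w) ω
              + (y ω - (g ω).2) * (g ω).2 * y ω * (T w) ω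
              + (y ω - (g ω).2) * y ω * y ω * (T w) ω) := by ring
        rw [h4, abs_neg]
        exact (abs_add_le _ _).trans (by gcongr; exact abs_add_le _ _)
    have i3 := (hInt (y - y') y' y' (T w)).abs
    have i4 := (hInt (y - y') y' y (T w)).abs
    have i5 := (hInt (y - y') y y (T w)).abs
    have i34 : Integrable (fun ω => |(y - y') ω * y' ω * y' ω * (T w) ω|
      + |(y - y') ω * y' ω * y ω * (T w) ω|) μ := i3.add i4
    rw [integral_add i34 i5, integral_add i3 i4] at h2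
    have b1 : ‖y - y'‖ * ‖y'‖ * ‖y'‖ * ‖T w‖ ≤ δ * 2 * 2 * 8 := by gcongr
    have b2 : ‖y - y'‖ * ‖y'‖ * ‖y‖ * ‖T w‖ ≤ δ * 2 * 1 * 8 := by gcongr
    have b3 : ‖y - y'‖ * ‖y‖ * ‖y‖ * ‖T w‖ ≤ δ * 1 * 1 * 8 := by gcongr
    linarith
  -- (5)
  have q5 : |cub y (T w) - cub z w| ≤ 40 * Real.sqrt δ := by
    have h1 := hVAR Ω μ T hT1 z w δ hδ hδ1 g1 g2
    have h2 : 5 * Real.sqrt δ * ‖w‖ ≤ 5 * Real.sqrt δ * 8 := by gcongr
    linarith
  -- (6)
  have q6 : cub z w = ∫ ω, (g ω).1 ^ 3 * mD (g ω) ∂μ := by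
    unfold cub
    exact integral_congr_ae (by filter_upwards [cz, cw] with ω h h'; rw [h, h'])
  -- (7)
  have q7 : 2 * Real.sqrt 2 * ((∫ ω, hP (g ω) * (g ω).2 ∂μ) + ∫ ω, (g ω).1 ^ 3 * mD (g ω) ∂μ)
      - (∫ ω, cP (g ω) ∂μ) - (∫ ω, cD (g ω) ∂μ)
      = 2 * Real.sqrt 2 * ∫ ω, ((g ω).1 * (g ω).2 ^ 3 + (g ω).1 ^ 3 * (g ω).2) ∂μ := by
    rw [← integral_add (low_intS g (fun p => hP p * p.2)) (low_intS g (fun p => p.1 ^ 3 * mD p)),
      ← integral_const_mul, ← integral_const_mul,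
      ← integral_sub (low_intS g (fun p => 2 * Real.sqrt 2 * (hP p * p.2 + p.1 ^ 3 * mD p)))
        (low_intS g cP),
      ← integral_sub (low_intS g
        (fun p => 2 * Real.sqrt 2 * (hP p * p.2 + p.1 ^ 3 * mD p) - cP p)) (low_intS g cD)]
    refine integral_congr_ae (Eventually.of_forall fun ω => ?_)
    have := t9 (g ω)
    simp only [hhP, hcP, hmD, hcD]
    linarith
  have q8 : 1 ≤ ∫ ω, cP (g ω) ∂μ := by
    rw [← nz4]
    exact integral_mono (low_intS g (fun p => p.1 ^ 4)) (low_intS g cP) (fun ω => t7 (g ω))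
  have q9 : 0 ≤ ∫ ω, cD (g ω) ∂μ := by
    refine integral_nonneg fun ω => le_trans (by positivity) (t8 (g ω))
  have P' : (∫ ω, hP (g ω) * y ω ∂μ) ≤ V * ∫ ω, cP (g ω) ∂μ := (le_abs_self _).trans P
  have D' : (∫ ω, (g ω).2 ^ 3 * (T w) ω ∂μ) ≤ V * ∫ ω, cD (g ω) ∂μ := (le_abs_self _).trans D
  have s2 : 0 < Real.sqrt 2 := by positivity
  have s22 : Real.sqrt 2 * Real.sqrt 2 = 2 := Real.mul_self_sqrt (by norm_num)
  rw [abs_le] at q3 q4 q5
  rw [q6] at q5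
  set A := ∫ ω, cP (g ω) ∂μ
  set B := ∫ ω, cD (g ω) ∂μ
  have hfin : A + B ≤ 2 * Real.sqrt 2 * (V * (A + B) + 608 * Real.sqrt δ) := by
    have h1 : (∫ ω, hP (g ω) * (g ω).2 ∂μ) + (∫ ω, (g ω).1 ^ 3 * mD (g ω) ∂μ)
        ≤ V * (A + B) + 608 * Real.sqrt δ := by linarith [q3.1, q4.1, q5.1, q3.2, q4.2, q5.2]
    have h2 : A + B ≤ 2 * Real.sqrt 2 * ((∫ ω, hP (g ω) * (g ω).2 ∂μ)
        + ∫ ω, (g ω).1 ^ 3 * mD (g ω) ∂μ) := by
      have : 0 ≤ 2 * Real.sqrt 2 * ∫ ω, ((g ω).1 * (g ω).2 ^ 3 + (g ω).1 ^ 3 * (g ω).2) ∂μ := by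
        positivity
      linarith
    exact h2.trans (by gcongr)
  have hfin2 : (Real.sqrt 2 / 4 - V) * (A + B) ≤ 608 * Real.sqrt δ := by
    have h3 : Real.sqrt 2 / 4 * (A + B)
        ≤ Real.sqrt 2 / 4 * (2 * Real.sqrt 2 * (V * (A + B) + 608 * Real.sqrt δ)) := by
      gcongr
    have h4 : Real.sqrt 2 / 4 * (2 * Real.sqrt 2 * (V * (A + B) + 608 * Real.sqrt δ))
        = V * (A + B) + 608 * Real.sqrt δ := by
      linear_combination (1 / 2 * (V * (A + B) + 608 * Real.sqrt δ)) * s22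
    linarith
  have h0 : 0 < Real.sqrt 2 / 4 - V := by linarith
  have h5 : (Real.sqrt 2 / 4 - V) * 1 ≤ (Real.sqrt 2 / 4 - V) * (A + B) := by
    apply mul_le_mul_of_nonneg_left _ h0.le; linarith
  linarith

theorem low_narrow_neg {Ω : Type} [MeasurableSpace Ω] {μ : Measure Ω} [IsFiniteMeasure μ]
    (T : Lp ℝ 4 μ →L[ℝ] Lp ℝ 4 μ) (hT : Narrow T) : Narrow (-T) := by
  intro A hA ε hε
  obtain ⟨B, C, hB, hC, h1, h2, h3, h4⟩ := hT A hA ε hε
  refine ⟨B, C, hB, hC, h1, h2, h3, ?_⟩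
  rw [neg_apply, norm_neg]
  exact h4

theorem st_LOW (hK : ST_K) (hVAR : ST_VAR) (hPW : ST_PW) (hAPX : ST_APX) (hBAS : ST_BAS) :
    ST_LOW := by
  intro Ω _ μ _ T hT hT1 V hV
  by_contra hlt
  push Not at hlt
  have key : ∀ δ : ℝ, 0 < δ → δ ≤ 1 → Real.sqrt 2 / 4 - V ≤ 608 * Real.sqrt δ := by
    intro δ hδ hδ1
    obtain ⟨g, g1, g2, g3⟩ := hAPX Ω μ T hT1 δ hδ hδ1
    by_cases hS : 0 ≤ ∫ ω, ((g ω).1 * (g ω).2 ^ 3 + (g ω).1 ^ 3 * (g ω).2) ∂μ
    · exact low_core hK hVAR hPW hBAS Ω μ T hT hT1 V hV δ hδ hδ1 g g1 g2 g3 hS hlt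
    · push Not at hS
      have e1 : (g.map (fun p : ℝ × ℝ => (p.1, -p.2))).map Prod.fst = g.map Prod.fst := by
        rw [SimpleFunc.map_map]; rfl
      have e2 : toL (μ := μ) ((g.map (fun p : ℝ × ℝ => (p.1, -p.2))).map Prod.snd)
          = - toL (μ := μ) (g.map Prod.snd) := by
        apply Lp.ext
        filter_upwards [low_coe (μ := μ) ((g.map (fun p : ℝ × ℝ => (p.1, -p.2))).map Prod.snd),
          low_coe (μ := μ) (g.map Prod.snd), Lp.coeFn_neg (toL (μ := μ) (g.map Prod.snd))]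
          with ω h1 h2 h3
        rw [h1, h3, Pi.neg_apply, h2]
        rfl
      refine low_core hK hVAR hPW hBAS Ω μ (-T) (low_narrow_neg T hT) (by rw [norm_neg]; exact hT1)
        V ?_ δ hδ hδ1 (g.map (fun p : ℝ × ℝ => (p.1, -p.2))) ?_ ?_ ?_ ?_ hlt
      · intro f
        have h1 : cub f ((-T) f) = - cub f (T f) := by
          unfold cub
          rw [neg_apply, ← integral_neg]
          refine integral_congr_ae ?_
          filter_upwards [Lp.coeFn_neg (T f)] with ω h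
          rw [h, Pi.neg_apply]; ring
        rw [h1, abs_neg]; exact hV f
      · rw [e1]; exact g1
      · rw [e1, neg_apply, norm_neg]; exact g2
      · rw [e1, e2, neg_apply]
        have : -T (toL (μ := μ) (g.map Prod.fst)) - -toL (μ := μ) (g.map Prod.snd)
            = -(T (toL (μ := μ) (g.map Prod.fst)) - toL (μ := μ) (g.map Prod.snd)) := by abel
        rw [this, norm_neg]; exact g3
      · have : (∫ ω, (((g.map (fun p : ℝ × ℝ => (p.1, -p.2))) ω).1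
            * ((g.map (fun p : ℝ × ℝ => (p.1, -p.2))) ω).2 ^ 3
            + ((g.map (fun p : ℝ × ℝ => (p.1, -p.2))) ω).1 ^ 3
            * ((g.map (fun p : ℝ × ℝ => (p.1, -p.2))) ω).2) ∂μ)
            = - ∫ ω, ((g ω).1 * (g ω).2 ^ 3 + (g ω).1 ^ 3 * (g ω).2) ∂μ := by
          rw [← integral_neg]
          refine integral_congr_ae (Eventually.of_forall fun ω => ?_)
          simp only [SimpleFunc.map_apply]
          ring
        rw [this]; linarith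
  have hlim : Tendsto (fun δ : ℝ => 608 * Real.sqrt δ) (𝓝[>] 0) (𝓝 (608 * Real.sqrt 0)) := by
    apply Tendsto.mono_left _ nhdsWithin_le_nhds
    exact (Continuous.tendsto (by fun_prop) 0)
  rw [Real.sqrt_zero, mul_zero] at hlim
  have h2 : Real.sqrt 2 / 4 - V ≤ 0 := by
    refine ge_of_tendsto hlim ?_
    have : ∀ᶠ δ : ℝ in 𝓝[>] 0, δ ∈ Set.Ioc (0:ℝ) 1 := Ioc_mem_nhdsGT (by norm_num)
    filter_upwards [this] with δ h
    exact key δ h.1 h.2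
  linarith

end Pool.Agent.Helper66.NI
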