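import Pool.Agent.Helper66.NI.Stmts

namespace Pool.Agent.Helper66.NI

theorem pw_q1 (r a b m : ℝ) (hr : r ^ 2 = 2) (hsum : a + b = r) (hab : a * b = -1)
    (m1 : b ≤ m) (m2 : m ≤ a) : m ^ 4 ≤ 4 * r * m + 3 := by
  have f1 : (m - a) * (m - b) ≤ 0 := mul_nonpos_of_nonpos_of_nonneg (by linarith) (by linarith)
  have f2 : 0 ≤ r * m + 1 - m ^ 2 := by
    have : (m - a) * (m - b) = m ^ 2 - r * m - 1 := by
      linear_combination (-m) * hsum + hab
    linarith
  have f3 : 0 ≤ m ^ 2 + r * m + 3 := by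
    have : m ^ 2 + r * m + 3 = (m + r / 2) ^ 2 + (3 - r ^ 2 / 4) := by ring
    rw [this, hr]; positivity
  have f4 : (4 * r * m + 3) - m ^ 4 = (r * m + 1 - m ^ 2) * (m ^ 2 + r * m + 3) := by
    linear_combination (-m ^ 2) * hr
  have := mul_nonneg f2 f3
  linarith

theorem pw_q2 (r a b w : ℝ) (hr : r ^ 2 = 2) (hsum : a + b = r) (hab : a * b = -1)
    (w1 : b ≤ w) (w2 : w ≤ a) : 3 * w ^ 4 ≤ 4 * r * (w ^ 3 - r) + 9 := by
  have f1 : (w - a) * (w - b) ≤ 0 := mul_nonpos_of_nonpos_of_nonneg (by linarith) (by linarith)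
  have f2 : 0 ≤ r * w + 1 - w ^ 2 := by
    have : (w - a) * (w - b) = w ^ 2 - r * w - 1 := by
      linear_combination (-w) * hsum + hab
    linarith
  have f7 : 0 ≤ 3 * w ^ 2 - r * w + 1 := by
    have : 3 * w ^ 2 - r * w + 1 = 3 * (w - r / 6) ^ 2 + (1 - r ^ 2 / 12) := by ring
    rw [this, hr]; positivity
  have f6 : 4 * r * (w ^ 3 - r) + 9 - 3 * w ^ 4
      = (r * w + 1 - w ^ 2) * (3 * w ^ 2 - r * w + 1) := by
    linear_combination (-4 + w ^ 2) * hr
  have := mul_nonneg f2 f7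
  linarith

set_option maxHeartbeats 1000000 in
theorem pw_exists (r a b z y : ℝ) (hr : r ^ 2 = 2) (hr0 : 1 ≤ r) (_hr2 : r ≤ 3 / 2)
    (ha : a ^ 2 = r * a + 1) (hb : b ^ 2 = r * b + 1)
    (hab : a * b = -1) (ha1 : 1 ≤ a) (ha2 : a ≤ 2) (hb0 : b < 0) (_hb1 : -1 ≤ b) :
    ∃ u v θ u' v' θ' : ℝ, (0 ≤ θ ∧ θ ≤ 1) ∧ (0 ≤ θ' ∧ θ' ≤ 1) ∧
      θ * u + (1 - θ) * v = z ∧
      θ' * u' ^ 3 + (1 - θ') * v' ^ 3 = y ^ 3 ∧
      |θ * u ^ 3 + (1 - θ) * v ^ 3| ≤ 8 * (|z| + |y|) ^ 3 ∧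
      |θ' * u' + (1 - θ') * v'| ≤ 2 * (|z| + |y|) ∧
      z ^ 4 ≤ θ * u ^ 4 + (1 - θ) * v ^ 4 ∧
      y ^ 4 ≤ θ' * u' ^ 4 + (1 - θ') * v' ^ 4 ∧
      2 * r * (y * (θ * u ^ 3 + (1 - θ) * v ^ 3) + z ^ 3 * (θ' * u' + (1 - θ') * v'))
        - (θ * u ^ 4 + (1 - θ) * v ^ 4) - (θ' * u' ^ 4 + (1 - θ') * v' ^ 4)
        = 2 * r * (z * y ^ 3 + z ^ 3 * y) := by
  have hz0 := abs_nonneg z
  have hy0 := abs_nonneg y
  have ha3 : a ^ 3 = 3 * a + r := by linear_combination (a + r) * ha + a * hr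
  have hb3 : b ^ 3 = 3 * b + r := by linear_combination (b + r) * hb + b * hr
  have ha4 : a ^ 4 = 4 * r * a + 3 := by linear_combination a * ha3 + 3 * ha + 0 * hr
  have hb4 : b ^ 4 = 4 * r * b + 3 := by linear_combination b * hb3 + 3 * hb + 0 * hr
  have hsum : a + b = r := by
    have : a * (a + b) = a * r := by linear_combination ha + hab
    exact mul_left_cancel₀ (by linarith) this
  have habd : 0 < a - b := by linarith
  have hab3 : 0 < a ^ 3 - b ^ 3 := by rw [ha3, hb3]; linarith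
  have hz3 : |z| ^ 3 ≤ 8 * (|z| + |y|) ^ 3 := by
    have : |z| ^ 3 ≤ (|z| + |y|) ^ 3 := by gcongr; linarith
    have h2 : 0 ≤ (|z| + |y|) ^ 3 := by positivity
    linarith
  by_cases hP : y ≠ 0 ∧ b * y ^ 2 ≤ z * y ∧ z * y ≤ a * y ^ 2
  · -- first distribution active
    obtain ⟨hy, h1, h2⟩ := hP
    have hy2 : 0 < y ^ 2 := by positivity
    have m1 : b ≤ z / y := by
      rw [show z / y = z * y / y ^ 2 by field_simp, le_div_iff₀ hy2]; exact h1
    have m2 : z / y ≤ a := by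
      rw [show z / y = z * y / y ^ 2 by field_simp, div_le_iff₀ hy2]; exact h2
    set m := z / y with hm
    have hzm : z = m * y := by rw [hm]; field_simp
    set θ := (m - b) / (a - b) with hθ
    have hθ0 : 0 ≤ θ := div_nonneg (by linarith) habd.le
    have hθ1 : θ ≤ 1 := by rw [hθ, div_le_one habd]; linarith
    have e1 : θ * a + (1 - θ) * b = m := by
      have : θ * (a - b) = m - b := by rw [hθ]; field_simp
      linarith
    have eh : θ * (a * y) ^ 3 + (1 - θ) * (b * y) ^ 3 = y ^ 3 * (3 * m + r) := by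
      rw [← e1]; linear_combination (θ * y ^ 3) * ha3 + ((1 - θ) * y ^ 3) * hb3
    have ec : θ * (a * y) ^ 4 + (1 - θ) * (b * y) ^ 4 = y ^ 4 * (4 * r * m + 3) := by
      rw [← e1]; linear_combination (θ * y ^ 4) * ha4 + ((1 - θ) * y ^ 4) * hb4
    refine ⟨a * y, b * y, θ, y, y, 0, ⟨hθ0, hθ1⟩, ⟨le_refl _, zero_le_one⟩, ?_, ?_, ?_, ?_, ?_,
      ?_, ?_⟩
    · rw [hzm, ← e1]; ring
    · ring
    · rw [eh, abs_mul, abs_pow]
      have hm1 : |m| ≤ 2 := by rw [abs_le]; constructor <;> linarith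
      have h3 : |3 * m + r| ≤ 8 := by
        rw [abs_le] at hm1 ⊢; constructor <;> linarith [hm1.1, hm1.2]
      have h4 : |y| ^ 3 ≤ (|z| + |y|) ^ 3 := by gcongr; linarith
      calc |y| ^ 3 * |3 * m + r| ≤ (|z| + |y|) ^ 3 * 8 := by gcongr
        _ = 8 * (|z| + |y|) ^ 3 := by ring
    · have : (0:ℝ) * y + (1 - 0) * y = y := by ring
      rw [this]; linarith
    · rw [ec, hzm, mul_pow]
      have hy4 : 0 ≤ y ^ 4 := by positivity
      have h10 := mul_le_mul_of_nonneg_left (pw_q1 r a b m hr hsum hab m1 m2) hy4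
      linarith
    · have : (0:ℝ) * y ^ 4 + (1 - 0) * y ^ 4 = y ^ 4 := by ring
      rw [this]
    · rw [eh, ec, hzm]
      linear_combination (2 * y ^ 4) * hr
  · by_cases hz : z = 0
    · -- z = 0 and then y = 0
      subst hz
      have hy : y = 0 := by
        by_contra hy
        apply hP
        have hy2 : 0 < y ^ 2 := by positivity
        refine ⟨hy, by nlinarith, by nlinarith⟩
      subst hy
      refine ⟨0, 0, 0, 0, 0, 0, ?_, ?_, ?_, ?_, ?_, ?_, ?_, ?_, ?_⟩ <;> norm_num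
    · have hz2 : 0 < z ^ 2 := by positivity
      have key : b * z ^ 2 < -(y * z) ∧ -(y * z) < a * z ^ 2 := by
        by_cases hy : y = 0
        · subst hy; constructor <;> nlinarith
        · have hy2 : 0 < y ^ 2 := by positivity
          have hP' : ¬ (b * y ^ 2 ≤ z * y ∧ z * y ≤ a * y ^ 2) := fun h => hP ⟨hy, h.1, h.2⟩
          rw [not_and_or, not_le, not_le] at hP'
          rcases hP' with h | h
          · -- z*y < b*y^2 < 0
            have hneg : z * y < 0 := lt_trans h (by nlinarith)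
            refine ⟨by nlinarith, ?_⟩
            -- -(yz) < a z^2 ; multiply by y^2
            have h5 : (-(z * y)) * (y ^ 2) < (-(z * y)) * (a * (-(z * y))) := by
              apply mul_lt_mul_of_pos_left _ (by linarith)
              nlinarith [hab]
            have h6 : (-(z * y)) * y ^ 2 < (a * z ^ 2) * y ^ 2 := by nlinarith [h5]
            have := lt_of_mul_lt_mul_right h6 hy2.le
            linarith
          · have hpos : 0 < z * y := lt_trans (by nlinarith) h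
            refine ⟨?_, by nlinarith⟩
            have h5 : (z * y) * (y ^ 2) < (z * y) * ((-b) * (z * y)) := by
              apply mul_lt_mul_of_pos_left _ hpos
              nlinarith [hab]
            have h6 : (z * y) * y ^ 2 < ((-b) * z ^ 2) * y ^ 2 := by nlinarith [h5]
            have := lt_of_mul_lt_mul_right h6 hy2.le
            linarith
      obtain ⟨k1, k2⟩ := key
      set w := -(y / z) with hw
      have hyw : y = -(w * z) := by rw [hw]; field_simp
      have w1 : b < w := by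
        rw [hw, show -(y / z) = -(y * z) / z ^ 2 by field_simp, lt_div_iff₀ hz2]; exact k1
      have w2 : w < a := by
        rw [hw, show -(y / z) = -(y * z) / z ^ 2 by field_simp, div_lt_iff₀ hz2]; exact k2
      have w31 : b ^ 3 ≤ w ^ 3 := by
        have := (Odd.strictMono_pow (R := ℝ) (n := 3) (by decide)) w1
        exact this.le
      have w32 : w ^ 3 ≤ a ^ 3 := by
        have := (Odd.strictMono_pow (R := ℝ) (n := 3) (by decide)) w2
        exact this.le
      set θ := (w ^ 3 - b ^ 3) / (a ^ 3 - b ^ 3) with hθ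
      have hθ0 : 0 ≤ θ := div_nonneg (by linarith) hab3.le
      have hθ1 : θ ≤ 1 := by rw [hθ, div_le_one hab3]; linarith
      have e1 : θ * a ^ 3 + (1 - θ) * b ^ 3 = w ^ 3 := by
        have : θ * (a ^ 3 - b ^ 3) = w ^ 3 - b ^ 3 := by rw [hθ]; field_simp
        linarith
      have e2 : 3 * (θ * a + (1 - θ) * b) = w ^ 3 - r := by
        rw [← e1, ha3, hb3]; ring
      have em : 3 * (θ * (-(a * z)) + (1 - θ) * (-(b * z))) = -(z * (w ^ 3 - r)) := by
        rw [← e2]; ring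
      have eh : θ * (-(a * z)) ^ 3 + (1 - θ) * (-(b * z)) ^ 3 = y ^ 3 := by
        rw [hyw]
        linear_combination (-z ^ 3) * e1
      have ec : 3 * (θ * (-(a * z)) ^ 4 + (1 - θ) * (-(b * z)) ^ 4)
          = z ^ 4 * (4 * r * (w ^ 3 - r) + 9) := by
        rw [← e2]; linear_combination (3 * θ * z ^ 4) * ha4 + (3 * (1 - θ) * z ^ 4) * hb4
      refine ⟨z, z, 0, -(a * z), -(b * z), θ, ⟨le_refl _, zero_le_one⟩, ⟨hθ0, hθ1⟩, by ring, eh,
        ?_, ?_, ?_, ?_, ?_⟩
      · have : (0:ℝ) * z ^ 3 + (1 - 0) * z ^ 3 = z ^ 3 := by ring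
        rw [this, abs_pow]; exact hz3
      · -- |m| ≤ 2(|z|+|y|)
        have hm : θ * (-(a * z)) + (1 - θ) * (-(b * z)) = -(z * (θ * a + (1 - θ) * b)) := by ring
        rw [hm, abs_neg, abs_mul]
        have h7 : |θ * a + (1 - θ) * b| ≤ 2 := by
          rw [abs_le]; constructor <;> nlinarith
        calc |z| * |θ * a + (1 - θ) * b| ≤ |z| * 2 := by gcongr
          _ ≤ 2 * (|z| + |y|) := by linarith
      · have : (0:ℝ) * z ^ 4 + (1 - 0) * z ^ 4 = z ^ 4 := by ring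
        rw [this]
      · -- y^4 ≤ c'
        have f5 := pw_q2 r a b w hr hsum hab w1.le w2.le
        have hz4 : 0 ≤ z ^ 4 := by positivity
        have : y ^ 4 = w ^ 4 * z ^ 4 := by rw [hyw]; ring
        rw [this]
        have h11 := mul_le_mul_of_nonneg_left f5 hz4
        linarith
      · have h0 : (0:ℝ) * z ^ 3 + (1 - 0) * z ^ 3 = z ^ 3 := by ring
        have h0' : (0:ℝ) * z ^ 4 + (1 - 0) * z ^ 4 = z ^ 4 := by ring
        rw [h0, h0']
        have hyy : y * z ^ 3 = -(w * z ^ 4) := by rw [hyw]; ring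
        have hzy : z * y ^ 3 = -(w ^ 3 * z ^ 4) := by rw [hyw]; ring
        linear_combination (2 * r / 3) * z ^ 3 * em - (1 / 3) * ec - 2 * r * hzy + 2 * z ^ 4 * hr

theorem st_PW : ST_PW := by
  have hr : Real.sqrt 2 ^ 2 = 2 := Real.sq_sqrt (by norm_num)
  have hr0 : (1:ℝ) ≤ Real.sqrt 2 := by
    rw [show (1:ℝ) = Real.sqrt 1 by simp]; exact Real.sqrt_le_sqrt (by norm_num)
  have hr2 : Real.sqrt 2 ≤ 3 / 2 := by
    rw [Real.sqrt_le_left (by norm_num)]; norm_num
  have h6 : Real.sqrt 6 ^ 2 = 6 := Real.sq_sqrt (by norm_num)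
  have h62 : Real.sqrt 6 ≤ 5 / 2 := by
    rw [Real.sqrt_le_left (by norm_num)]; norm_num
  have h61 : (2:ℝ) ≤ Real.sqrt 6 := by
    rw [show (2:ℝ) = Real.sqrt (2^2) by simp]; exact Real.sqrt_le_sqrt (by norm_num)
  have h12 : Real.sqrt 6 = Real.sqrt 2 * Real.sqrt 3 := by
    rw [← Real.sqrt_mul (by norm_num)]; norm_num
  have h3 : Real.sqrt 3 ^ 2 = 3 := Real.sq_sqrt (by norm_num)
  have H : ∀ p : ℝ × ℝ, _ := fun p => pw_exists (Real.sqrt 2) ((Real.sqrt 6 + Real.sqrt 2) / 2)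
    ((Real.sqrt 2 - Real.sqrt 6) / 2) p.1 p.2 hr hr0 hr2
    (by rw [h12]; linear_combination (1 / 4) * (Real.sqrt 3 ^ 2 - 1) * hr + (1 / 2) * h3)
    (by rw [h12]; linear_combination (1 / 4) * (Real.sqrt 3 ^ 2 - 1) * hr + (1 / 2) * h3)
    (by linear_combination (1 / 4) * hr - (1 / 4) * h6)
    (by linarith) (by linarith) (by linarith) (by linarith)
  choose u v θ u' v' θ' h1 h2 h3 h4 h5 h6 h7 h8 h9 using H
  exact ⟨u, v, θ, u', v', θ', h1, h2, h3, h4, h5, h6, h7, h8, h9⟩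

end Pool.Agent.Helper66.NI
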