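import Pool.Agent.Helper66.NI.Stmts

open MeasureTheory Filter Topology
open scoped ENNReal

namespace Pool.Agent.Helper66.NI

theorem rad_cub_eq {Ω : Type} [MeasurableSpace Ω] {μ : Measure Ω} (f g : Lp ℝ 4 μ) :
    cub f g = quad f f f g := by
  unfold cub quad
  exact integral_congr_ae (Eventually.of_forall fun ω => by simp only []; ring)

theorem rad_cub_le (hBAS : ST_BAS) {Ω : Type} [MeasurableSpace Ω] {μ : Measure Ω}
    (f g : Lp ℝ 4 μ) : |cub f g| ≤ ‖f‖ ^ 3 * ‖g‖ := by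
  obtain ⟨hInt, hN4, hH⟩ := hBAS Ω μ
  rw [rad_cub_eq]
  have := hH f f f g
  calc |quad f f f g| ≤ ∫ ω, |f ω * f ω * f ω * g ω| ∂μ := abs_integral_le_integral_abs
    _ ≤ ‖f‖ * ‖f‖ * ‖f‖ * ‖g‖ := this
    _ = ‖f‖ ^ 3 * ‖g‖ := by ring

theorem rad_cub_self (hBAS : ST_BAS) {Ω : Type} [MeasurableSpace Ω] {μ : Measure Ω}
    (f : Lp ℝ 4 μ) : cub f f = ‖f‖ ^ 4 := by
  obtain ⟨hInt, hN4, hH⟩ := hBAS Ω μ
  rw [hN4]
  unfold cub
  exact integral_congr_ae (Eventually.of_forall fun ω => by simp only []; ring)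

theorem rad_int (hBAS : ST_BAS) {Ω : Type} [MeasurableSpace Ω] {μ : Measure Ω}
    (f g : Lp ℝ 4 μ) : Integrable (fun ω => (f ω) ^ 3 * g ω) μ := by
  obtain ⟨hInt, hN4, hH⟩ := hBAS Ω μ
  exact (hInt f f f g).congr (Eventually.of_forall fun ω => by simp only []; ring)

theorem rad_cub_add (hBAS : ST_BAS) {Ω : Type} [MeasurableSpace Ω] {μ : Measure Ω}
    (f g h : Lp ℝ 4 μ) : cub f (g + h) = cub f g + cub f h := by
  unfold cub
  rw [← integral_add (rad_int hBAS f g) (rad_int hBAS f h)]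
  refine integral_congr_ae ?_
  filter_upwards [Lp.coeFn_add g h] with ω e
  rw [e, Pi.add_apply]; ring

theorem rad_cub_smul {Ω : Type} [MeasurableSpace Ω] {μ : Measure Ω}
    (f g : Lp ℝ 4 μ) (c : ℝ) : cub f (c • g) = c * cub f g := by
  unfold cub
  rw [← integral_const_mul]
  refine integral_congr_ae ?_
  filter_upwards [Lp.coeFn_smul c g] with ω e
  rw [e, Pi.smul_apply, smul_eq_mul]; ring

theorem rad_cub_smul_left {Ω : Type} [MeasurableSpace Ω] {μ : Measure Ω}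
    (f g : Lp ℝ 4 μ) (c : ℝ) : cub (c • f) g = c ^ 3 * cub f g := by
  unfold cub
  rw [← integral_const_mul]
  refine integral_congr_ae ?_
  filter_upwards [Lp.coeFn_smul c f] with ω e
  rw [e, Pi.smul_apply, smul_eq_mul]; ring

noncomputable def radL (hBAS : ST_BAS) {Ω : Type} [MeasurableSpace Ω] {μ : Measure Ω}
    (x : Lp ℝ 4 μ) : Lp ℝ 4 μ →ₗ[ℝ] ℝ where
  toFun := fun g => cub x g
  map_add' := fun g h => rad_cub_add hBAS x g h
  map_smul' := fun c g => rad_cub_smul x g c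

theorem radL_le (hBAS : ST_BAS) {Ω : Type} [MeasurableSpace Ω] {μ : Measure Ω}
    (x g : Lp ℝ 4 μ) : ‖radL hBAS x g‖ ≤ ‖x‖ ^ 3 * ‖g‖ := rad_cub_le hBAS x g

noncomputable def radF (hBAS : ST_BAS) {Ω : Type} [MeasurableSpace Ω] {μ : Measure Ω}
    (x : Lp ℝ 4 μ) : Lp ℝ 4 μ →L[ℝ] ℝ :=
  LinearMap.mkContinuous (radL hBAS x) (‖x‖ ^ 3) (radL_le hBAS x)

theorem rad_bdd {X : Type*} [NormedAddCommGroup X] [NormedSpace ℝ X] (T : X →L[ℝ] X) :
    BddAbove {r : ℝ | ∃ (x : X) (f : X →L[ℝ] ℝ), ‖x‖ = 1 ∧ ‖f‖ = 1 ∧ f x = 1 ∧ r = ‖f (T x)‖} := by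
  refine ⟨‖T‖, ?_⟩
  rintro r ⟨x, f, hx, hf, -, rfl⟩
  have h1 := f.le_opNorm (T x)
  have h2 := T.le_opNorm x
  rw [hx, mul_one] at h2
  rw [hf, one_mul] at h1
  exact h1.trans h2

theorem st_RAD (hBAS : ST_BAS) : ST_RAD := by
  intro Ω _ μ T f
  by_cases hf : ‖f‖ = 0
  · have h1 := rad_cub_le hBAS f (T f)
    rw [hf] at h1 ⊢
    simpa using h1
  · have hpos : 0 < ‖f‖ := lt_of_le_of_ne (norm_nonneg _) (Ne.symm hf)
    set x : Lp ℝ 4 μ := ‖f‖⁻¹ • f with hx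
    have hx1 : ‖x‖ = 1 := by
      rw [hx, norm_smul, norm_inv, norm_norm]; field_simp
    have hφx : radF hBAS x x = 1 := by
      have : radF hBAS x x = cub x x := rfl
      rw [this, rad_cub_self hBAS, hx1]; norm_num
    have hφ1 : ‖radF hBAS x‖ ≤ 1 := by
      have := LinearMap.mkContinuous_norm_le (radL hBAS x) (by positivity : 0 ≤ ‖x‖ ^ 3)
        (radL_le hBAS x)
      refine this.trans ?_
      rw [hx1]; norm_num
    have hφ : ‖radF hBAS x‖ = 1 := by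
      apply le_antisymm hφ1
      have := (radF hBAS x).le_opNorm x
      rw [hφx, hx1, mul_one] at this
      simpa using this
    have hmem : ‖radF hBAS x (T x)‖ ≤ numRadius ℝ T :=
      le_csSup (rad_bdd T) ⟨x, radF hBAS x, hx1, hφ, hφx, rfl⟩
    have e : radF hBAS x (T x) = (‖f‖ ^ 4)⁻¹ * cub f (T f) := by
      have : radF hBAS x (T x) = cub x (T x) := rfl
      rw [this, hx, map_smul, rad_cub_smul, rad_cub_smul_left]
      field_simp
    rw [e, Real.norm_eq_abs, abs_mul, abs_of_nonneg (by positivity : 0 ≤ (‖f‖ ^ 4)⁻¹)] at hmem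
    have h4 : 0 < ‖f‖ ^ 4 := by positivity
    rw [inv_mul_le_iff₀ h4] at hmem
    linarith

end Pool.Agent.Helper66.NI
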