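import Mathlib

open MeasureTheory
open scoped ENNReal

namespace Pool.Agent.Helper66.NarrowReal

/-- numerical radius of an operator on a real Banach space -/
noncomputable def numRadius {X : Type*} [NormedAddCommGroup X] [NormedSpace ℝ X]
    (T : X →L[ℝ] X) : ℝ :=
  sSup {r : ℝ | ∃ (x : X) (f : X →L[ℝ] ℝ), ‖x‖ = 1 ∧ ‖f‖ = 1 ∧ f x = 1 ∧ r = |f (T x)|}

/-- numerical index of a real Banach space -/
noncomputable def numIndex (X : Type*) [NormedAddCommGroup X] [NormedSpace ℝ X] : ℝ :=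
  sInf {r : ℝ | ∃ T : X →L[ℝ] X, ‖T‖ = 1 ∧ r = numRadius T}

/-- atomless measures -/
def Atomless {Ω : Type*} [MeasurableSpace Ω] (μ : Measure Ω) : Prop :=
  ∀ A : Set Ω, MeasurableSet A → μ A ≠ 0 →
    ∃ B : Set Ω, B ⊆ A ∧ MeasurableSet B ∧ μ B ≠ 0 ∧ μ (A \ B) ≠ 0

/-- narrow operators on real L_p of a finite measure -/
structure Narrow {Ω : Type*} [MeasurableSpace Ω] {μ : Measure Ω} [IsFiniteMeasure μ] {p : ℝ≥0∞}
    [Fact (1 ≤ p)] (T : Lp ℝ p μ →L[ℝ] Lp ℝ p μ) : Prop where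
  split : ∀ A : Set Ω, MeasurableSet A → ∀ ε : ℝ, 0 < ε →
    ∃ (B C : Set Ω) (hB : MeasurableSet B) (hC : MeasurableSet C),
      B ∪ C = A ∧ Disjoint B C ∧ μ B = μ C ∧
      ‖T (indicatorConstLp p hB (measure_ne_top μ B) 1
        - indicatorConstLp p hC (measure_ne_top μ C) 1)‖ < ε

/-- r is the numerical radius of a narrow operator of norm one on real L_p -/
structure IsNarrowValue (p : ℝ≥0∞) [Fact (1 ≤ p)] {Ω : Type*} [MeasurableSpace Ω]
    (μ : Measure Ω) [IsFiniteMeasure μ] (r : ℝ) : Prop where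
  ex : ∃ T : Lp ℝ p μ →L[ℝ] Lp ℝ p μ, ‖T‖ = 1 ∧ Narrow T ∧ r = numRadius T

/-- narrow numerical index of real L_p -/
noncomputable def narIndex (p : ℝ≥0∞) [Fact (1 ≤ p)] {Ω : Type*} [MeasurableSpace Ω]
    (μ : Measure Ω) [IsFiniteMeasure μ] : ℝ :=
  sInf {r : ℝ | IsNarrowValue p μ r}

end Pool.Agent.Helper66.NarrowReal
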