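import Pool.Agent.Helper66.NI.Stmts

namespace Pool.Agent.Helper66.NI

theorem sos_main (x y z : ℝ) :
    x^3*(1*x+(-5)*y+250*z) + y^3*(5*x+(-1)*y+(-250)*z) + z^3*(-177*x+177*y) ≤
      105.34 * (x^4+y^4+z^4) := by
  have h : 105.34 * (x^4+y^4+z^4) - (x^3*(1*x+(-5)*y+250*z) + y^3*(5*x+(-1)*y+(-250)*z)
      + z^3*(-177*x+177*y)) =
      (5217/50)*(x^2 + (-35/20868)*(y^2) + (-1253/1739)*(z^2) + (125/5217)*(x*y) + (-6250/5217)*(x*z) + (136/5217)*(y*z))^2
      + (443819399/4173600)*(y^2 + (-307473672/443819399)*(z^2) + (-10416500/443819399)*(x*y) + (10769344/443819399)*(x*z) + (521719040/443819399)*(y*z))^2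
      + (1464886877/11095484975)*(z^2 + (6313433543/5859547508)*(x*y) + (4915524069/2929773754)*(x*z) + (1370472393/2929773754)*(y*z))^2
      + (45851806229/585954750800)*(x*y + (56784252358/45851806229)*(x*z) + (7125267266/45851806229)*(y*z))^2
      + (62945385128/1146295155725)*(x*z + (168034177755/251781540512)*(y*z))^2
      + (462393517419/25178154051200)*(y*z)^2 := by
    ring
  have h2 : 0 ≤ 105.34 * (x^4+y^4+z^4) - (x^3*(1*x+(-5)*y+250*z) + y^3*(5*x+(-1)*y+(-250)*z)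
      + z^3*(-177*x+177*y)) := by
    rw [h]; positivity
  linarith

theorem st_SOS : ST_SOS := by
  intro x
  have e : ∑ i, x i ^ 3 * (M0.mulVec x) i = x 0^3*(1*x 0+(-5)*x 1+250*x 2)
      + x 1^3*(5*x 0+(-1)*x 1+(-250)*x 2) + x 2^3*(-177*x 0+177*x 1) := by
    simp [M0, Matrix.mulVec, dotProduct, Fin.sum_univ_three]
  rw [e, Fin.sum_univ_three, abs_le]
  constructor
  · have := sos_main (x 1) (x 0) (x 2)
    nlinarith [this]
  · exact sos_main (x 0) (x 1) (x 2)

end Pool.Agent.Helper66.NI
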