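import Pool.Agent.Helper66.NI.RAD

open MeasureTheory Filter Topology
open scoped ENNReal

namespace Pool.Agent.Helper66.NI

theorem sup_le (hBAS : ST_BAS) (hEXP : ST_EXP) {Ω : Type} [MeasurableSpace Ω] {μ : Measure Ω}
    (x : Lp ℝ 4 μ) (φ : Lp ℝ 4 μ →L[ℝ] ℝ) (hx : ‖x‖ = 1) (hφ : ‖φ‖ = 1) (hφx : φ x = 1)
    (g : Lp ℝ 4 μ) : φ g ≤ cub x g := by
  obtain ⟨hInt, hN4, hH⟩ := hBAS Ω μ
  -- for small s > 0 : 4 s φ g ≤ 4 s cub + C s^2
  set a := φ g with ha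
  have hq : ∀ s : ℝ, 0 < s → s ≤ 1 → s * |a| ≤ 1 →
      4 * a ≤ 4 * cub x g + s * (6 * |quad x x g g| + 4 * |cub g x| + ‖g‖ ^ 4 + 4 * |a| ^ 3) := by
    intro s hs hs1 hsa
    have h1 : 1 + s * a ≤ ‖x + s • g‖ := by
      have h2 := φ.le_opNorm (x + s • g)
      rw [hφ, one_mul, map_add, map_smul, hφx, smul_eq_mul] at h2
      exact (le_abs_self _).trans h2
    have h0 : 0 ≤ 1 + s * a := by
      have : -|a| ≤ a := neg_abs_le a
      nlinarith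
    have h3 : (1 + s * a) ^ 4 ≤ ‖x + s • g‖ ^ 4 := by gcongr
    rw [hEXP Ω μ x g s, hx] at h3
    have e : (1 + s * a) ^ 4 = 1 + 4 * s * a + 6 * s ^ 2 * a ^ 2 + 4 * s ^ 3 * a ^ 3
      + s ^ 4 * a ^ 4 := by ring
    have p1 : 0 ≤ 6 * s ^ 2 * a ^ 2 := by positivity
    have p2 : 0 ≤ s ^ 4 * a ^ 4 := by positivity
    have p3 : -(s ^ 2 * |a| ^ 3) ≤ s ^ 3 * a ^ 3 := by
      have : |s ^ 3 * a ^ 3| ≤ s ^ 2 * |a| ^ 3 := by
        rw [abs_mul, abs_pow, abs_pow, abs_of_pos hs]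
        have : s ^ 3 ≤ s ^ 2 := by nlinarith [sq_nonneg s, pow_pos hs 2]
        gcongr
      exact (abs_le.1 this).1
    have p4 : quad x x g g ≤ |quad x x g g| := le_abs_self _
    have p5 : s ^ 3 * cub g x ≤ s ^ 2 * |cub g x| := by
      have : s ^ 3 ≤ s ^ 2 := by nlinarith [sq_nonneg s, pow_pos hs 2]
      calc s ^ 3 * cub g x ≤ s ^ 3 * |cub g x| := by gcongr; exact le_abs_self _
        _ ≤ s ^ 2 * |cub g x| := by gcongr
    have p6 : s ^ 4 * ‖g‖ ^ 4 ≤ s ^ 2 * ‖g‖ ^ 4 := by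
      have : s ^ 4 ≤ s ^ 2 := by
        have := pow_le_pow_of_le_one hs.le hs1 (show 2 ≤ 4 by norm_num)
        exact this
      gcongr
    have p7 : s ^ 2 * quad x x g g ≤ s ^ 2 * |quad x x g g| := by gcongr
    have h5 : s * (4 * a) ≤ s * (4 * cub x g
        + s * (6 * |quad x x g g| + 4 * |cub g x| + ‖g‖ ^ 4 + 4 * |a| ^ 3)) := by
      rw [e] at h3; nlinarith
    exact le_of_mul_le_mul_left h5 hs
  set C := 6 * |quad x x g g| + 4 * |cub g x| + ‖g‖ ^ 4 + 4 * |a| ^ 3 with hC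
  have hlim : Tendsto (fun s : ℝ => 4 * cub x g + s * C) (𝓝[>] 0) (𝓝 (4 * cub x g + 0 * C)) := by
    apply Tendsto.mono_left _ nhdsWithin_le_nhds
    exact (Continuous.tendsto (by fun_prop) 0)
  have h2 : 4 * a ≤ 4 * cub x g + 0 * C := by
    refine ge_of_tendsto hlim ?_
    have : ∀ᶠ s : ℝ in 𝓝[>] 0, s ∈ Set.Ioc (0:ℝ) (min 1 (|a| + 1)⁻¹) :=
      Ioc_mem_nhdsGT (by positivity)
    filter_upwards [this] with s h
    have h3 : s ≤ (|a| + 1)⁻¹ := h.2.trans (min_le_right _ _)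
    refine hq s h.1 (h.2.trans (min_le_left _ _)) ?_
    have h4 : 0 < |a| + 1 := by positivity
    rw [le_inv_comm₀ h.1 h4] at h3
    have h5 : s * (|a| + 1) ≤ s * s⁻¹ := by have := h.1.le; gcongr
    rw [mul_inv_cancel₀ h.1.ne'] at h5
    have := h.1
    linarith
  linarith

theorem st_SUP (hBAS : ST_BAS) (hEXP : ST_EXP) : ST_SUP := by
  intro Ω _ μ x φ hx hφ hφx g
  apply le_antisymm (sup_le hBAS hEXP x φ hx hφ hφx g)
  have h := sup_le hBAS hEXP x φ hx hφ hφx (-g)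
  have e : cub x (-g) = - cub x g := by
    have := rad_cub_smul x g (-1)
    simpa using this
  rw [map_neg, e] at h
  linarith

theorem st_RADLE (hSUP : ST_SUP) : ST_RADLE := by
  intro Ω _ μ T c hc h
  unfold numRadius
  apply Real.sSup_le _ hc
  rintro r ⟨x, f, hx, hf, hfx, rfl⟩
  rw [hSUP Ω μ x f hx hf hfx (T x), Real.norm_eq_abs]
  have := h x
  rw [hx] at this
  simpa using this

end Pool.Agent.Helper66.NI
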