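import Pool.Agent.Helper66.NI.Defs

open MeasureTheory Filter Topology
open scoped ENNReal

namespace Pool.Agent.Helper66.NI

/-- integrability of quartic products, four-linear Hoelder (AM-GM after normalisation), norm -/
def ST_BAS : Prop := ∀ (Ω : Type) [MeasurableSpace Ω] (μ : Measure Ω),
  (∀ a b c d : Lp ℝ 4 μ, Integrable (fun ω => a ω * b ω * c ω * d ω) μ) ∧
  (∀ a : Lp ℝ 4 μ, ‖a‖ ^ 4 = ∫ ω, (a ω) ^ 4 ∂μ) ∧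
  (∀ a b c d : Lp ℝ 4 μ, (∫ ω, |a ω * b ω * c ω * d ω| ∂μ) ≤ ‖a‖ * ‖b‖ * ‖c‖ * ‖d‖)

/-- expansion of the norm -/
def ST_EXP : Prop := ∀ (Ω : Type) [MeasurableSpace Ω] (μ : Measure Ω) (f g : Lp ℝ 4 μ) (s : ℝ),
  ‖f + s • g‖ ^ 4 = ‖f‖ ^ 4 + 4 * s * cub f g + 6 * s ^ 2 * quad f f g g
    + 4 * s ^ 3 * cub g f + s ^ 4 * ‖g‖ ^ 4

/-- support functionals of L_4 -/
def ST_SUP : Prop := ∀ (Ω : Type) [MeasurableSpace Ω] (μ : Measure Ω) (x : Lp ℝ 4 μ)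
  (φ : Lp ℝ 4 μ →L[ℝ] ℝ), ‖x‖ = 1 → ‖φ‖ = 1 → φ x = 1 → ∀ g, φ g = cub x g

def ST_RAD : Prop := ∀ (Ω : Type) [MeasurableSpace Ω] (μ : Measure Ω)
  (T : Lp ℝ 4 μ →L[ℝ] Lp ℝ 4 μ) (f : Lp ℝ 4 μ),
  |cub f (T f)| ≤ numRadius ℝ T * ‖f‖ ^ 4

def ST_RADLE : Prop := ∀ (Ω : Type) [MeasurableSpace Ω] (μ : Measure Ω)
  (T : Lp ℝ 4 μ →L[ℝ] Lp ℝ 4 μ) (c : ℝ), 0 ≤ c →
  (∀ f : Lp ℝ 4 μ, |cub f (T f)| ≤ c * ‖f‖ ^ 4) → numRadius ℝ T ≤ c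

/-- halving a set narrowly, compatibly with one integrable function -/
def ST_SPL1 : Prop := ∀ (Ω : Type) [MeasurableSpace Ω] (μ : Measure Ω) [IsFiniteMeasure μ]
  (T : Lp ℝ 4 μ →L[ℝ] Lp ℝ 4 μ), Narrow T → ∀ φ : Ω → ℝ, Integrable φ μ →
  ∀ (A : Set Ω) (hA : MeasurableSet A) (ε : ℝ), 0 < ε →
  ∃ (B : Set Ω) (hB : MeasurableSet B), B ⊆ A ∧ μ.real B = 1 / 2 * μ.real A ∧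
    ‖T (ind μ hB) - (1 / 2 : ℝ) • T (ind μ hA)‖ < ε ∧
    |(∫ ω in B, φ ω ∂μ) - 1 / 2 * ∫ ω in A, φ ω ∂μ| < ε

/-- dyadic fractions -/
def ST_SPL2 : Prop := ∀ (Ω : Type) [MeasurableSpace Ω] (μ : Measure Ω) [IsFiniteMeasure μ]
  (T : Lp ℝ 4 μ →L[ℝ] Lp ℝ 4 μ), Narrow T → ∀ φ : Ω → ℝ, Integrable φ μ →
  ∀ (n k : ℕ), k ≤ 2 ^ n → ∀ (A : Set Ω) (hA : MeasurableSet A) (ε : ℝ), 0 < ε →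
  ∃ (B : Set Ω) (hB : MeasurableSet B), B ⊆ A ∧ μ.real B = (k : ℝ) / 2 ^ n * μ.real A ∧
    ‖T (ind μ hB) - ((k : ℝ) / 2 ^ n) • T (ind μ hA)‖ < ε ∧
    |(∫ ω in B, φ ω ∂μ) - (k : ℝ) / 2 ^ n * ∫ ω in A, φ ω ∂μ| < ε

/-- Young measures: dyadic weights -/
def ST_KD : Prop := ∀ (Ω : Type) [MeasurableSpace Ω] (μ : Measure Ω) [IsFiniteMeasure μ]
  (T : Lp ℝ 4 μ →L[ℝ] Lp ℝ 4 μ), Narrow T → ∀ V : ℝ,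
  (∀ f : Lp ℝ 4 μ, |cub f (T f)| ≤ V * ‖f‖ ^ 4) →
  ∀ (g : SimpleFunc Ω (ℝ × ℝ)) (u v : ℝ × ℝ → ℝ) (n : ℕ) (k : ℝ × ℝ → ℕ), (∀ p, k p ≤ 2 ^ n) →
  |∫ ω, ((k (g ω) : ℝ) / 2 ^ n * u (g ω) ^ 3 + (1 - (k (g ω) : ℝ) / 2 ^ n) * v (g ω) ^ 3)
      * (T (toL (g.map (fun p => (k p : ℝ) / 2 ^ n * u p + (1 - (k p : ℝ) / 2 ^ n) * v p)))) ω ∂μ|
    ≤ V * ∫ ω, ((k (g ω) : ℝ) / 2 ^ n * u (g ω) ^ 4 + (1 - (k (g ω) : ℝ) / 2 ^ n) * v (g ω) ^ 4) ∂μ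

/-- Young measures: real weights -/
def ST_K : Prop := ∀ (Ω : Type) [MeasurableSpace Ω] (μ : Measure Ω) [IsFiniteMeasure μ]
  (T : Lp ℝ 4 μ →L[ℝ] Lp ℝ 4 μ), Narrow T → ∀ V : ℝ,
  (∀ f : Lp ℝ 4 μ, |cub f (T f)| ≤ V * ‖f‖ ^ 4) →
  ∀ (g : SimpleFunc Ω (ℝ × ℝ)) (u v θ : ℝ × ℝ → ℝ), (∀ p, 0 ≤ θ p ∧ θ p ≤ 1) →
  |∫ ω, (θ (g ω) * u (g ω) ^ 3 + (1 - θ (g ω)) * v (g ω) ^ 3)
      * (T (toL (g.map (fun p => θ p * u p + (1 - θ p) * v p)))) ω ∂μ|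
    ≤ V * ∫ ω, (θ (g ω) * u (g ω) ^ 4 + (1 - θ (g ω)) * v (g ω) ^ 4) ∂μ

/-- almost norm attaining vectors are almost critical -/
def ST_VAR : Prop := ∀ (Ω : Type) [MeasurableSpace Ω] (μ : Measure Ω)
  (T : Lp ℝ 4 μ →L[ℝ] Lp ℝ 4 μ), ‖T‖ = 1 → ∀ (z g : Lp ℝ 4 μ) (δ : ℝ), 0 < δ → δ ≤ 1 →
  ‖z‖ = 1 → 1 - δ ≤ ‖T z‖ → |cub (T z) (T g) - cub z g| ≤ 5 * Real.sqrt δ * ‖g‖

/-- the pointwise two-point distributions: p = (z, y) -/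
def ST_PW : Prop := ∃ (u v θ u' v' θ' : ℝ × ℝ → ℝ),
  (∀ p, 0 ≤ θ p ∧ θ p ≤ 1) ∧ (∀ p, 0 ≤ θ' p ∧ θ' p ≤ 1) ∧
  (∀ p, θ p * u p + (1 - θ p) * v p = p.1) ∧
  (∀ p, θ' p * u' p ^ 3 + (1 - θ' p) * v' p ^ 3 = p.2 ^ 3) ∧
  (∀ p, |θ p * u p ^ 3 + (1 - θ p) * v p ^ 3| ≤ 8 * (|p.1| + |p.2|) ^ 3) ∧
  (∀ p, |θ' p * u' p + (1 - θ' p) * v' p| ≤ 2 * (|p.1| + |p.2|)) ∧
  (∀ p, p.1 ^ 4 ≤ θ p * u p ^ 4 + (1 - θ p) * v p ^ 4) ∧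
  (∀ p, p.2 ^ 4 ≤ θ' p * u' p ^ 4 + (1 - θ' p) * v' p ^ 4) ∧
  (∀ p, 2 * Real.sqrt 2 * (p.2 * (θ p * u p ^ 3 + (1 - θ p) * v p ^ 3)
      + p.1 ^ 3 * (θ' p * u' p + (1 - θ' p) * v' p))
    - (θ p * u p ^ 4 + (1 - θ p) * v p ^ 4) - (θ' p * u' p ^ 4 + (1 - θ' p) * v' p ^ 4)
    = 2 * Real.sqrt 2 * (p.1 * p.2 ^ 3 + p.1 ^ 3 * p.2))

/-- simple approximations of a norm attaining pair -/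
def ST_APX : Prop := ∀ (Ω : Type) [MeasurableSpace Ω] (μ : Measure Ω) [IsFiniteMeasure μ]
  (T : Lp ℝ 4 μ →L[ℝ] Lp ℝ 4 μ), ‖T‖ = 1 → ∀ δ : ℝ, 0 < δ → δ ≤ 1 →
  ∃ g : SimpleFunc Ω (ℝ × ℝ), ‖toL (μ := μ) (g.map Prod.fst)‖ = 1 ∧
    1 - δ ≤ ‖T (toL (g.map Prod.fst))‖ ∧
    ‖T (toL (g.map Prod.fst)) - toL (g.map Prod.snd)‖ ≤ δ

/-- the lower bound for narrow operators -/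
def ST_LOW : Prop := ∀ (Ω : Type) [MeasurableSpace Ω] (μ : Measure Ω) [IsFiniteMeasure μ]
  (T : Lp ℝ 4 μ →L[ℝ] Lp ℝ 4 μ), Narrow T → ‖T‖ = 1 → ∀ V : ℝ,
  (∀ f : Lp ℝ 4 μ, |cub f (T f)| ≤ V * ‖f‖ ^ 4) → Real.sqrt 2 / 4 ≤ V

/-- Sierpinski: halving in atomless finite measures -/
def ST_HALF : Prop := ∀ (Ω : Type) [MeasurableSpace Ω] (μ : Measure Ω) [IsFiniteMeasure μ],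
  Atomless μ → ∀ A : Set Ω, MeasurableSet A → ∃ B : Set Ω, B ⊆ A ∧ MeasurableSet B ∧
    μ B = μ (A \ B)

/-- the narrow rotation -/
def ST_ROT : Prop := ∀ (Ω : Type) [MeasurableSpace Ω] (μ : Measure Ω) [IsFiniteMeasure μ],
  μ ≠ 0 → Atomless μ → ∃ T : Lp ℝ 4 μ →L[ℝ] Lp ℝ 4 μ, ‖T‖ = 1 ∧ Narrow T ∧
    ∀ f : Lp ℝ 4 μ, |cub f (T f)| ≤ Real.sqrt 2 / 4 * ‖f‖ ^ 4

/-- copies of a 3 x 3 matrix on L_4[0,1] -/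
def ST_TEN : Prop := ∀ M : Matrix (Fin 3) (Fin 3) ℝ, ∃ T : Lp ℝ 4 mu01 →L[ℝ] Lp ℝ 4 mu01,
  (∀ c : ℝ, (∀ x : Fin 3 → ℝ, |∑ i, x i ^ 3 * (M.mulVec x) i| ≤ c * ∑ i, x i ^ 4) →
    ∀ f : Lp ℝ 4 mu01, |cub f (T f)| ≤ c * ‖f‖ ^ 4) ∧
  (∀ x : Fin 3 → ℝ, ∑ i, (M.mulVec x) i ^ 4 ≤ ‖T‖ ^ 4 * ∑ i, x i ^ 4)

def M0 : Matrix (Fin 3) (Fin 3) ℝ := !![1, -5, 250; 5, -1, -250; -177, 177, 0]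

/-- sum of squares certificate -/
def ST_SOS : Prop := ∀ x : Fin 3 → ℝ, |∑ i, x i ^ 3 * (M0.mulVec x) i| ≤ 105.34 * ∑ i, x i ^ 4

def ST_ATL : Prop := Atomless mu01

/-- the result -/
def ST_FIN : Prop :=
  (∀ (Ω : Type) [MeasurableSpace Ω] (μ : Measure Ω) [IsFiniteMeasure μ], μ ≠ 0 → Atomless μ →
    narIndex ℝ 4 μ = Real.sqrt 2 / 4) ∧
  (Atomless mu01 ∧ mu01 ≠ 0 ∧ numIndex ℝ (Lp ℝ 4 mu01) < Real.sqrt 2 / 4)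

end Pool.Agent.Helper66.NI
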