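import Pool.Agent.Helper66.NI.RAD

open MeasureTheory Filter Topology
open scoped ENNReal

namespace Pool.Agent.Helper66.NI

theorem var_one (hBAS : ST_BAS) (hEXP : ST_EXP) {Ω : Type} [MeasurableSpace Ω] {μ : Measure Ω}
    (T : Lp ℝ 4 μ →L[ℝ] Lp ℝ 4 μ) (hT : ‖T‖ = 1) (z g : Lp ℝ 4 μ) (δ : ℝ) (hδ : 0 < δ)
    (hδ1 : δ ≤ 1) (hz : ‖z‖ = 1) (hTz : 1 - δ ≤ ‖T z‖) :
    cub (T z) (T g) - cub z g ≤ 5 * Real.sqrt δ * ‖g‖ := by
  obtain ⟨hInt, hN4, hH⟩ := hBAS Ω μ
  have hTg : ‖T g‖ ≤ ‖g‖ := by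
    have := T.le_opNorm g
    rwa [hT, one_mul] at this
  have hTz1 : ‖T z‖ ≤ 1 := by
    have := T.le_opNorm z
    rwa [hT, one_mul, hz] at this
  by_cases hg : ‖g‖ = 0
  · have h1 := rad_cub_le hBAS (T z) (T g)
    have h2 := rad_cub_le hBAS z g
    have h3 : ‖T g‖ = 0 := le_antisymm (by rw [← hg]; exact hTg) (norm_nonneg _)
    rw [h3, mul_zero] at h1
    rw [hg, mul_zero] at h2
    rw [hg, mul_zero]
    have h4 := (abs_nonpos_iff.1 h1)
    have h5 := (abs_nonpos_iff.1 h2)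
    rw [h4, h5]; norm_num
  · have hG : 0 < ‖g‖ := lt_of_le_of_ne (norm_nonneg _) (Ne.symm hg)
    set G := ‖g‖ with hGdef
    set s := Real.sqrt δ / G with hs
    have hsq : 0 < Real.sqrt δ := Real.sqrt_pos.2 hδ
    have hsq2 : Real.sqrt δ * Real.sqrt δ = δ := Real.mul_self_sqrt hδ.le
    have hsq1 : Real.sqrt δ ≤ 1 := by
      rw [Real.sqrt_le_one]; exact hδ1
    have hs0 : 0 < s := div_pos hsq hG
    have hsG : s * G = Real.sqrt δ := by rw [hs]; field_simp
    have h1 : ‖T z + s • T g‖ ≤ ‖z + s • g‖ := by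
      have := T.le_opNorm (z + s • g)
      rwa [hT, one_mul, map_add, map_smul] at this
    have h2 : ‖T z + s • T g‖ ^ 4 ≤ ‖z + s • g‖ ^ 4 := by gcongr
    rw [hEXP Ω μ (T z) (T g) s, hEXP Ω μ z g s, hz] at h2
    have b1 : 0 ≤ quad (T z) (T z) (T g) (T g) := by
      unfold quad
      refine integral_nonneg fun ω => ?_
      have : (T z) ω * (T z) ω * (T g) ω * (T g) ω = ((T z) ω * (T g) ω) ^ 2 := by ring
      simp only []
      rw [this]; positivity
    have b2 : quad z z g g ≤ G ^ 2 := by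
      have := hH z z g g
      rw [hz] at this
      calc quad z z g g ≤ |quad z z g g| := le_abs_self _
        _ ≤ ∫ ω, |z ω * z ω * g ω * g ω| ∂μ := abs_integral_le_integral_abs
        _ ≤ 1 * 1 * G * G := this
        _ = G ^ 2 := by ring
    have b3 : cub g z ≤ G ^ 3 := by
      have := rad_cub_le hBAS g z
      rw [hz, mul_one] at this
      exact (le_abs_self _).trans this
    have b4 : -(G ^ 3) ≤ cub (T g) (T z) := by
      have := rad_cub_le hBAS (T g) (T z)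
      have h5 : ‖T g‖ ^ 3 * ‖T z‖ ≤ G ^ 3 * 1 := by gcongr
      have := (abs_le.1 this).1
      linarith
    have b5 : 0 ≤ s ^ 4 * ‖T g‖ ^ 4 := by positivity
    have b6 : 1 - 4 * δ ≤ ‖T z‖ ^ 4 := by
      have h0 : 0 ≤ 1 - δ := by linarith
      have h6 : (1 - δ) ^ 4 ≤ ‖T z‖ ^ 4 := by gcongr
      have h7 : 1 - 4 * δ ≤ (1 - δ) ^ 4 := by
        nlinarith [sq_nonneg δ, sq_nonneg (δ - 1), mul_nonneg (sq_nonneg δ) (sq_nonneg (δ - 2)),
          mul_nonneg hδ.le (sq_nonneg δ)]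
      linarith
    have c2 : s ^ 2 * quad z z g g ≤ δ := by
      have : s ^ 2 * quad z z g g ≤ s ^ 2 * G ^ 2 := by gcongr
      calc s ^ 2 * quad z z g g ≤ s ^ 2 * G ^ 2 := this
        _ = (s * G) * (s * G) := by ring
        _ = δ := by rw [hsG, hsq2]
    have e3 : s ^ 3 * G ^ 3 = Real.sqrt δ * δ := by
      calc s ^ 3 * G ^ 3 = (s * G) * ((s * G) * (s * G)) := by ring
        _ = _ := by rw [hsG, hsq2]
    have c3 : s ^ 3 * cub g z ≤ δ := by
      have h8 : s ^ 3 * cub g z ≤ s ^ 3 * G ^ 3 := by gcongr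
      have h9 : Real.sqrt δ * δ ≤ 1 * δ := by gcongr
      linarith
    have c4 : -δ ≤ s ^ 3 * cub (T g) (T z) := by
      have h8 : s ^ 3 * (-(G ^ 3)) ≤ s ^ 3 * cub (T g) (T z) := by gcongr
      have h9 : Real.sqrt δ * δ ≤ 1 * δ := by gcongr
      linarith
    have c5 : s ^ 4 * G ^ 4 ≤ δ := by
      have : s ^ 4 * G ^ 4 = δ * δ := by
        calc s ^ 4 * G ^ 4 = ((s * G) * (s * G)) * ((s * G) * (s * G)) := by ring
          _ = _ := by rw [hsG, hsq2]
      rw [this]; nlinarith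
    have h3 : 4 * s * (cub (T z) (T g) - cub z g) ≤ 19 * δ := by nlinarith
    have h4 : 4 * s * (cub (T z) (T g) - cub z g) ≤ 4 * s * (5 * Real.sqrt δ * G) := by
      have : 4 * s * (5 * Real.sqrt δ * G) = 20 * δ := by
        calc 4 * s * (5 * Real.sqrt δ * G) = 20 * (s * G) * Real.sqrt δ := by ring
          _ = _ := by rw [hsG, mul_assoc, hsq2]
      rw [this]; linarith
    exact le_of_mul_le_mul_left h4 (by positivity)

theorem st_VAR (hBAS : ST_BAS) (hEXP : ST_EXP) : ST_VAR := by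
  intro Ω _ μ T hT z g δ hδ hδ1 hz hTz
  rw [abs_le]
  constructor
  · have h := var_one hBAS hEXP T hT z (-g) δ hδ hδ1 hz hTz
    have e : ∀ a b : Lp ℝ 4 μ, cub a (-b) = - cub a b := by
      intro a b
      have := rad_cub_smul a b (-1)
      simpa using this
    rw [map_neg, e, e, norm_neg] at h
    linarith
  · exact var_one hBAS hEXP T hT z g δ hδ hδ1 hz hTz

end Pool.Agent.Helper66.NI
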